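import Pool.Agent.H88.GH.All.Jung

/-!
Convex hulls of sets of unit vectors of small diameter, without assuming that the diameter is
less than `√2`.
-/

namespace Pool.Agent.H49.GHL

open Finset Module Pool.Agent.H88.GH

variable {E : Type*} [NormedAddCommGroup E] [InnerProductSpace ℝ E] [FiniteDimensional ℝ E]

/-- Unit vectors with small mutual distances do not have `0` in their convex hull. -/
lemma zero_notMem_hull {A : Set E} {n : ℕ} (hn : finrank ℝ E = n) (hA : ∀ a ∈ A, ‖a‖ = 1)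
    {L : ℝ} (hD : ∀ a ∈ A, ∀ b ∈ A, ‖a - b‖ ≤ L)
    (hL : L ^ 2 * (1 - 1 / ((n + 1 : ℕ) : ℝ)) / 2 < 1) : (0 : E) ∉ convexHull ℝ A := by
  classical
  intro h0
  obtain ⟨ι, hι, q, w, hq, hai, hw0, hw1, hq0⟩ := eq_pos_convex_span_of_mem_convexHull h0
  have hq' : ∀ i, q i ∈ A := fun i => hq (Set.mem_range_self i)
  have hcard : Fintype.card ι ≤ n + 1 := by
    have h1 := hai.card_le_finrank_succ
    have h2 : finrank ℝ (vectorSpan ℝ (Set.range q)) ≤ finrank ℝ E := Submodule.finrank_le _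
    omega
  have hj := jung (univ : Finset ι) w q (k := n + 1) (D := L) (by simpa using hcard)
    (fun i _ => (hw0 i).le) hw1 (fun i _ j _ => hD _ (hq' i) _ (hq' j))
  rw [hq0] at hj
  have h1 : ∑ i, w i * ‖q i - 0‖ ^ 2 = 1 := by
    rw [← hw1]
    exact sum_congr rfl fun i _ => by rw [sub_zero, hA _ (hq' i)]; ring
  rw [h1] at hj
  linarith

/-- Caratheodory's theorem in a cone: a unit vector `z` in the cone of a set `A` of unit
vectors, of diameter at most `D`, in dimension `n`. -/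
lemma cone_near' {A : Set E} {z : E} (hz : ‖z‖ = 1) {n : ℕ}
    (hn : finrank ℝ E = n) (hA : ∀ a ∈ A, ‖a‖ = 1) {D : ℝ} (h0A : (0 : E) ∉ convexHull ℝ A)
    (hD : ∀ a ∈ A, ∀ b ∈ A, ‖a - b‖ ≤ D) {κ : ℝ} (hκ : 0 < κ)
    (hzA : κ • z ∈ convexHull ℝ A) :
    ∃ a ∈ A, 0 ≤ inner ℝ z a ∧ 1 - D ^ 2 * (1 - 1 / n) / 2 ≤ (inner ℝ z a : ℝ) ^ 2 := by
  classical
  -- projection
  let K : Submodule ℝ E := (ℝ ∙ z)ᗮ
  let π : E →ₗ[ℝ] E := LinearMap.id - (innerₛₗ ℝ z).smulRight z
  have hπ : ∀ x, π x = x - (inner ℝ z x : ℝ) • z := by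
    intro x; simp [π]
  have hπK : ∀ x, π x ∈ K := by
    intro x
    rw [Submodule.mem_orthogonal_singleton_iff_inner_right, hπ, inner_sub_right, inner_smul_right,
      real_inner_self_eq_norm_sq, hz]
    ring
  have h0 : (0:E) ∈ convexHull ℝ (π '' A) := by
    rw [← LinearMap.image_convexHull]
    refine ⟨κ • z, hzA, ?_⟩
    rw [map_smul, hπ, real_inner_self_eq_norm_sq, hz]
    simp
  obtain ⟨ι, hι, q, w, hq, hai, hw0, hw1, hq0⟩ := eq_pos_convex_span_of_mem_convexHull h0
  have hq' : ∀ i, ∃ a ∈ A, π a = q i := by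
    intro i
    exact hq (Set.mem_range_self i)
  choose a ha haq using hq'
  have hcard : Fintype.card ι ≤ n := by
    have h1 := hai.card_le_finrank_succ
    have h2 : vectorSpan ℝ (Set.range q) ≤ K := by
      rw [vectorSpan_def, Submodule.span_le]
      rintro _ ⟨x, ⟨i, rfl⟩, y, ⟨j, rfl⟩, rfl⟩
      simp only [vsub_eq_sub, SetLike.mem_coe]
      rw [← haq, ← haq]
      exact K.sub_mem (hπK _) (hπK _)
    have h3 := Submodule.finrank_mono h2
    have h4 : finrank ℝ K + 1 = n := by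
      have hz0 : z ≠ 0 := by
        intro h
        rw [h, norm_zero] at hz
        exact zero_ne_one hz
      have h5 := Submodule.finrank_add_finrank_orthogonal (ℝ ∙ z)
      rw [finrank_span_singleton hz0, hn] at h5
      change finrank ℝ (ℝ ∙ z)ᗮ + 1 = n
      omega
    have h6 : finrank ℝ (vectorSpan ℝ (Set.range q)) ≤ finrank ℝ K := h3
    generalize finrank ℝ K = e1 at *
    generalize finrank ℝ (vectorSpan ℝ (Set.range q)) = e2 at *
    omega
  set c := ∑ i, w i • a i with hc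
  have hcA : c ∈ convexHull ℝ A :=
    (convex_convexHull ℝ A).sum_mem (fun i _ => (hw0 i).le) hw1
      fun i _ => subset_convexHull ℝ A (ha i)
  have hcz : ∃ l : ℝ, c = l • z := by
    refine ⟨inner ℝ z c, ?_⟩
    have h1 : π c = 0 := by
      rw [hc, map_sum]
      simp_rw [map_smul, haq]
      exact hq0
    rw [hπ] at h1
    exact sub_eq_zero.1 h1
  obtain ⟨l, hl⟩ := hcz
  have hlpos : 0 ≤ l := by
    by_contra hneg
    push Not at hneg
    apply h0A
    rw [hl] at hcA
    have h1 := (convex_convexHull ℝ A) hcA hzA (a := κ / (κ - l)) (b := -l / (κ - l))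
      (div_nonneg hκ.le (by linarith)) (div_nonneg (by linarith) (by linarith))
      (by rw [← add_div]; exact div_self (by linarith))
    have h2 : (κ / (κ - l)) • l • z + (-l / (κ - l)) • κ • z = (0 : E) := by
      rw [smul_smul, smul_smul, ← add_smul]
      have : κ / (κ - l) * l + -l / (κ - l) * κ = 0 := by ring
      rw [this, zero_smul]
    rwa [h2] at h1
  have hl1 : l = ∑ i, w i * inner ℝ z (a i) := by
    have : (inner ℝ z c : ℝ) = l := by
      rw [hl, inner_smul_right, real_inner_self_eq_norm_sq, hz]; ring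
    rw [← this, hc, inner_sum]
    exact sum_congr rfl fun i _ => by rw [inner_smul_right]
  have hj := jung (univ : Finset ι) w a (k := n) (D := D) (by simpa using hcard)
    (fun i _ => (hw0 i).le) hw1 (fun i _ j _ => hD _ (ha i) _ (ha j))
  have hst := steiner (univ : Finset ι) w a hw1 0
  rw [← hc] at hj hst
  simp only [sub_zero, hA _ (ha _), one_pow, mul_one, hw1] at hst
  have hc2 : ‖c‖ ^ 2 = l ^ 2 := by
    rw [hl, norm_smul, hz, mul_one, Real.norm_eq_abs, sq_abs]
  obtain ⟨i, -, hi⟩ := exists_le_mean (univ : Finset ι) w (f := fun i => -(inner ℝ z (a i) : ℝ))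
    (M := -l) (fun i _ => (hw0 i).le) hw1 (by
      rw [hl1, ← sum_neg_distrib]
      apply le_of_eq
      apply sum_congr rfl
      intro i _
      ring)
  have hi' : l ≤ (inner ℝ z (a i) : ℝ) := by linarith
  refine ⟨a i, ha i, hlpos.trans hi', ?_⟩
  have : l ^ 2 ≤ (inner ℝ z (a i) : ℝ) ^ 2 := pow_le_pow_left₀ hlpos hi' 2
  linarith

end Pool.Agent.H49.GHL
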