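import Pool.Agent.H75.Brouwer.Brouwer
import Pool.Agent.H49.GHL.Cone
import Pool.Agent.H88.GH.All.Kuhn
import Pool.Agent.H88.GH.All.MainAll

/-!
A lower bound for the Gromov-Hausdorff distance between the unit ball and the unit sphere in all
dimensions at least three, from Brouwer's fixed point theorem.
-/

namespace Pool.Agent.H49.GHL

open Metric Set Pool.Agent.H88.GH GromovHausdorff Topology Filter

/-- The lower bound for the distortion. -/
noncomputable def dst (m : ℕ) : ℝ := (3 * √3 / 2) / (1 + 2 * cr m)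

variable {m : ℕ}

/-- The radial extension of a map given on the sphere, and constant on rays outside the ball of
radius `1 / 2`. -/
noncomputable def bas (G : EuclideanSpace ℝ (Fin (m + 1)) → EuclideanSpace ℝ (Fin (m + 1))) (x : EuclideanSpace ℝ (Fin (m + 1))) : EuclideanSpace ℝ (Fin (m + 1)) := (min 1 (2 * ‖x‖)) • G (‖x‖⁻¹ • x)

lemma norm_unit {x : EuclideanSpace ℝ (Fin (m + 1))} (hx : x ≠ 0) : ‖‖x‖⁻¹ • x‖ = 1 := by
  rw [norm_smul, norm_inv, norm_norm]
  exact inv_mul_cancel₀ (norm_ne_zero_iff.2 hx)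

lemma bas_norm_le {G : EuclideanSpace ℝ (Fin (m + 1)) → EuclideanSpace ℝ (Fin (m + 1))} (hG : ∀ y, ‖y‖ = 1 → ‖G y‖ ≤ 1) (x : EuclideanSpace ℝ (Fin (m + 1))) :
    ‖bas G x‖ ≤ min 1 (2 * ‖x‖) := by
  unfold bas
  have h0 : 0 ≤ min 1 (2 * ‖x‖) := le_min zero_le_one (by positivity)
  rw [norm_smul, Real.norm_eq_abs, abs_of_nonneg h0]
  by_cases hx : x = 0
  · subst hx
    simp
  · have := mul_le_mul_of_nonneg_left (hG _ (norm_unit hx)) h0
    linarith

lemma continuous_bas {G : EuclideanSpace ℝ (Fin (m + 1)) → EuclideanSpace ℝ (Fin (m + 1))} (hG : ∀ y, ‖y‖ = 1 → ‖G y‖ ≤ 1)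
    (hGc : ContinuousOn G (sphere 0 1)) : Continuous (bas G) := by
  rw [continuous_iff_continuousAt]
  intro x
  by_cases hx : x = 0
  · subst hx
    have h0 : bas G 0 = 0 := by unfold bas; simp
    rw [ContinuousAt, h0]
    apply squeeze_zero_norm (a := fun x : EuclideanSpace ℝ (Fin (m + 1)) => min 1 (2 * ‖x‖)) (bas_norm_le hG)
    have h1 : Continuous fun x : EuclideanSpace ℝ (Fin (m + 1)) => min 1 (2 * ‖x‖) := by fun_prop
    have h2 := h1.tendsto 0
    simpa using h2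
  · have h1 : ContinuousOn (fun x : EuclideanSpace ℝ (Fin (m + 1)) => ‖x‖⁻¹ • x) {0}ᶜ := by
      refine ContinuousOn.fun_smul ?_ continuousOn_id
      exact continuous_norm.continuousOn.inv₀ fun y hy => norm_ne_zero_iff.2 hy
    have h2 : ContinuousOn (fun x : EuclideanSpace ℝ (Fin (m + 1)) => G (‖x‖⁻¹ • x)) {0}ᶜ :=
      hGc.comp h1 fun y hy => mem_sphere_zero_iff_norm.2 (norm_unit hy)
    have h3 : ContinuousOn (bas G) {0}ᶜ := by
      unfold bas
      refine ContinuousOn.fun_smul ?_ h2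
      have : Continuous fun x : EuclideanSpace ℝ (Fin (m + 1)) => min 1 (2 * ‖x‖) := by fun_prop
      exact this.continuousOn
    exact h3.continuousAt (isOpen_compl_singleton.mem_nhds hx)

/-- The values near a point. -/
def vals (f g : EuclideanSpace ℝ (Fin (m + 1)) → EuclideanSpace ℝ (Fin (m + 1))) (b : EuclideanSpace ℝ (Fin (m + 1)) → EuclideanSpace ℝ (Fin (m + 1))) (θ : EuclideanSpace ℝ (Fin (m + 1)) → ℝ) (δ ρ : ℝ) (x : EuclideanSpace ℝ (Fin (m + 1))) : Set (EuclideanSpace ℝ (Fin (m + 1))) :=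
  {a | ∃ y w, ‖y‖ ≤ 1 ∧ ‖w‖ = 1 ∧
    (‖x‖ ≤ 1 / 2 ∨ (‖w - ‖x‖⁻¹ • x‖ < δ ∧ ‖g w - b x‖ < ρ)) ∧
    ‖y - (b x + θ x • (g w - b x))‖ < δ ∧ a = f y}

/-- The core of the lower bound. -/
theorem lower_core (hm : 2 ≤ m) {D δ : ℝ} (hδ : 0 < δ) (hD : D = dst m)
    (R : EuclideanSpace ℝ (Fin (m + 1)) → EuclideanSpace ℝ (Fin (m + 1)) → Prop)
    (hR1 : ∀ x, ‖x‖ ≤ 1 → ∃ y, ‖y‖ = 1 ∧ R x y) (hR2 : ∀ y, ‖y‖ = 1 → ∃ x, ‖x‖ ≤ 1 ∧ R x y)
    (hR : ∀ x y x' y', R x y → R x' y' → |‖x - x'‖ - ‖y - y'‖| ≤ D - 5 * δ) : False := by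
  classical
  -- constants
  set r := cr m with hr
  have hr0 : 1 / 2 ≤ r := cr_ge (by omega)
  have hr2 : r ^ 2 < 1 / 2 := cr_lt m
  have hr1 : r < 1 := by nlinarith
  set s : ℝ := √3 with hs
  have hs0 : 0 < s := Real.sqrt_pos.2 (by norm_num)
  have hs2 : s ^ 2 = 3 := Real.sq_sqrt (by norm_num)
  have hDr : D * (1 + 2 * r) = 3 * s / 2 := by
    rw [hD]
    unfold dst
    rw [← hr, ← hs]
    exact div_mul_cancel₀ _ (by linarith)
  have hD0 : 0 < D := by
    by_contra hc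
    push Not at hc
    nlinarith
  set ρ := D * r with hρ
  have hρ0 : 0 < ρ := mul_pos hD0 (by linarith)
  set θs := (s / 2 - ρ) / ρ with hθs
  have hθρ : θs * ρ = s / 2 - ρ := div_mul_cancel₀ _ hρ0.ne'
  have hρ1 : ρ * (1 + 2 * r) = 3 * s / 2 * r := by rw [hρ, ← hDr]; ring
  have hρs : ρ ≤ s / 2 := by
    by_contra hc
    push Not at hc
    nlinarith
  have hθ0 : 0 ≤ θs := div_nonneg (by linarith) hρ0.le
  have hθ1 : θs ≤ 1 := by
    rw [hθs, div_le_one hρ0]
    by_contra hc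
    push Not at hc
    nlinarith
  have hLr : D * (1 + θs) * r = s / 2 := by
    have : D * (1 + θs) * r = ρ + θs * ρ := by rw [hρ]; ring
    rw [this, hθρ]; ring
  have hDs : D + (1 - θs) * ρ = s := by
    have : D + (1 - θs) * ρ = D + ρ - θs * ρ := by ring
    rw [this, hθρ, hρ]
    linarith
  -- the two maps
  choose! f hf1 hf2 using hR1
  choose! g hg1 hg2 using hR2
  -- the interpolation of g
  obtain ⟨G, hG1, hG2⟩ := exists_interpolation g hδ
  have hGn : ∀ y, ‖y‖ = 1 → ‖G y‖ ≤ 1 := by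
    intro y hy
    obtain ⟨s, w, -, hw0, hw1, hs, hGy⟩ := hG2 y hy
    rw [hGy]
    refine (norm_sum_le _ _).trans ?_
    rw [← hw1]
    apply Finset.sum_le_sum
    intro v hv
    rw [norm_smul, Real.norm_eq_abs, abs_of_nonneg (hw0 v hv)]
    have := mul_le_mul_of_nonneg_left (hg1 _ (hs v hv).1) (hw0 v hv)
    linarith
  have hgg : ∀ w w', ‖w‖ = 1 → ‖w'‖ = 1 → ‖g w - g w'‖ ≤ D - 5 * δ + ‖w - w'‖ := by
    intro w w' hw hw'
    have := (abs_le.1 (hR _ _ _ _ (hg2 w hw) (hg2 w' hw'))).2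
    linarith
  have hff : ∀ y y', ‖y‖ ≤ 1 → ‖y'‖ ≤ 1 → ‖f y - f y'‖ ≤ D - 5 * δ + ‖y - y'‖ := by
    intro y y' hy hy'
    have := (abs_le.1 (hR _ _ _ _ (hf2 y hy) (hf2 y' hy'))).1
    linarith
  have hfg : ∀ y w, ‖y‖ ≤ 1 → ‖w‖ = 1 → ‖f y - w‖ ≤ D - 5 * δ + ‖y - g w‖ := by
    intro y w hy hw
    have := (abs_le.1 (hR _ _ _ _ (hf2 y hy) (hg2 w hw))).1
    linarith
  have hnear : ∀ u, ‖u‖ = 1 → ∃ w, ‖w‖ = 1 ∧ ‖w - u‖ < δ ∧ ‖g w - G u‖ < ρ := by
    intro u hu
    obtain ⟨t, w, ht, hw0, hw1, hsv, hGy⟩ := hG2 u hu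
    have hpair : ∀ i ∈ t, ∀ j ∈ t, ‖g (dirn i) - g (dirn j)‖ ≤ D - 3 * δ := by
      intro i hi j hj
      have h1 := hgg _ _ (hsv i hi).1 (hsv j hj).1
      have h2 : ‖dirn i - dirn j‖ ≤ ‖dirn i - u‖ + ‖dirn j - u‖ := by
        rw [norm_sub_rev (dirn j) u]
        have := norm_add_le (dirn i - u) (u - dirn j)
        rwa [sub_add_sub_cancel] at this
      have h3 := (hsv i hi).2
      have h4 := (hsv j hj).2
      linarith
    obtain ⟨v, hv, hvc⟩ := jung_near t w (fun v => g (dirn v)) (k := m + 1) (D := D - 3 * δ) ht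
      hw0 hw1 hpair
    have hD3 : 0 ≤ D - 3 * δ := (norm_nonneg _).trans (hpair v hv v hv)
    refine ⟨dirn v, (hsv v hv).1, (hsv v hv).2, ?_⟩
    rw [← hGy] at hvc
    have h5 : ‖g (dirn v) - G u‖ ≤ (D - 3 * δ) * r := by
      rw [← pow_le_pow_iff_left₀ (norm_nonneg _) (by positivity) two_ne_zero, mul_pow, hr, cr_sq]
      linarith
    have h6 : (D - 3 * δ) * r < D * r := mul_lt_mul_of_pos_right (by linarith) (by linarith)
    exact lt_of_le_of_lt h5 h6
  -- the set-valued map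
  set b := bas G with hb
  have hbc : Continuous b := continuous_bas hGn hG1
  have hbn : ∀ x, ‖b x‖ ≤ 1 := fun x => (bas_norm_le hGn x).trans (min_le_left _ _)
  have hbu : ∀ x : EuclideanSpace ℝ (Fin (m + 1)), 1 / 2 ≤ ‖x‖ → b x = G (‖x‖⁻¹ • x) := by
    intro x hx
    rw [hb]
    unfold bas
    rw [min_eq_left (by linarith), one_smul]
  set θ : EuclideanSpace ℝ (Fin (m + 1)) → ℝ := fun x => θs * max 0 (2 * ‖x‖ - 1) with hθ
  have hθc : Continuous θ := by rw [hθ]; fun_prop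
  have hθn0 : ∀ x, 0 ≤ θ x := fun x => mul_nonneg hθ0 (le_max_left _ _)
  have hθn1 : ∀ x, ‖x‖ ≤ 1 → θ x ≤ θs := by
    intro x hx
    have h1 : max 0 (2 * ‖x‖ - 1) ≤ 1 := max_le zero_le_one (by linarith)
    have := mul_le_mul_of_nonneg_left h1 hθ0
    rw [mul_one] at this
    exact this
  set A := vals f g b θ δ ρ with hA
  have hA1 : ∀ x, ∀ a ∈ A x, ‖a‖ = 1 := by
    rintro x a ⟨y, w, hy, -, -, -, rfl⟩
    exact hf1 y hy
  have hA2 : ∀ x, ‖x‖ ≤ 1 → ∀ a ∈ A x, ∀ a' ∈ A x, ‖a - a'‖ ≤ D * (1 + θs) := by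
    rintro x hx a ⟨y, w, hy, hw, hxw, hyq, rfl⟩ a' ⟨y', w', hy', hw', hxw', hyq', rfl⟩
    have h1 := hff y y' hy hy'
    have h2 : ‖y - y'‖ ≤ ‖y - (b x + θ x • (g w - b x))‖ + ‖y' - (b x + θ x • (g w' - b x))‖ +
        ‖θ x • (g w - g w')‖ := by
      have e : y - y' = (y - (b x + θ x • (g w - b x))) - (y' - (b x + θ x • (g w' - b x))) +
          θ x • (g w - g w') := by
        simp only [smul_sub]
        abel
      calc ‖y - y'‖ = ‖(y - (b x + θ x • (g w - b x))) - (y' - (b x + θ x • (g w' - b x))) +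
          θ x • (g w - g w')‖ := by rw [← e]
        _ ≤ ‖(y - (b x + θ x • (g w - b x))) - (y' - (b x + θ x • (g w' - b x)))‖ +
          ‖θ x • (g w - g w')‖ := norm_add_le _ _
        _ ≤ _ := by
          have := norm_sub_le (y - (b x + θ x • (g w - b x))) (y' - (b x + θ x • (g w' - b x)))
          linarith
    have h3 : ‖θ x • (g w - g w')‖ ≤ θs * D := by
      rw [norm_smul, Real.norm_eq_abs, abs_of_nonneg (hθn0 x)]
      rcases le_or_gt ‖x‖ (1 / 2) with hx2 | hx2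
      · have : θ x = 0 := by
          rw [hθ]
          simp only
          rw [max_eq_left (by linarith), mul_zero]
        rw [this, zero_mul]
        exact mul_nonneg hθ0 hD0.le
      · have h4 : ‖w - ‖x‖⁻¹ • x‖ < δ := by
          rcases hxw with h | h
          · linarith
          · exact h.1
        have h5 : ‖w' - ‖x‖⁻¹ • x‖ < δ := by
          rcases hxw' with h | h
          · linarith
          · exact h.1
        have h6 : ‖w - w'‖ ≤ ‖w - ‖x‖⁻¹ • x‖ + ‖w' - ‖x‖⁻¹ • x‖ := by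
          rw [norm_sub_rev w' (‖x‖⁻¹ • x)]
          have := norm_add_le (w - ‖x‖⁻¹ • x) (‖x‖⁻¹ • x - w')
          rwa [sub_add_sub_cancel] at this
        have h7 := hgg w w' hw hw'
        exact mul_le_mul (hθn1 x hx) (by linarith) (norm_nonneg _) hθ0
    linarith
  -- the continuous selection
  obtain ⟨u₀, hu₀⟩ : ∃ u : EuclideanSpace ℝ (Fin (m + 1)), ‖u‖ = 1 := ⟨EuclideanSpace.single 0 1, by simp⟩
  obtain ⟨h, hh⟩ := exists_continuous_forall_mem_convex_of_local_const (X := EuclideanSpace ℝ (Fin (m + 1)))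
    (E := EuclideanSpace ℝ (Fin (m + 1)))
    (t := fun x => {z | ‖x‖ ≤ 1 → z ∈ convexHull ℝ (A x)}) (by
      intro x
      by_cases hx : ‖x‖ ≤ 1
      · have : {z | ‖x‖ ≤ 1 → z ∈ convexHull ℝ (A x)} = convexHull ℝ (A x) := by
          ext z; simp [hx]
        rw [this]
        exact convex_convexHull ℝ _
      · have : {z | ‖x‖ ≤ 1 → z ∈ convexHull ℝ (A x)} = univ := by
          ext z; simp [hx]
        rw [this]
        exact convex_univ) (by
      intro x₀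
      rcases lt_or_ge 1 ‖x₀‖ with hx1 | hx1
      · refine ⟨0, ?_⟩
        filter_upwards [continuous_norm.continuousAt.eventually_const_lt hx1] with x hx hx'
        linarith
      · obtain ⟨w₀, hw₀, hev⟩ : ∃ w₀ : EuclideanSpace ℝ (Fin (m + 1)), ‖w₀‖ = 1 ∧ ∀ᶠ x in 𝓝 x₀,
            (‖x‖ ≤ 1 / 2 ∨ (‖w₀ - ‖x‖⁻¹ • x‖ < δ ∧ ‖g w₀ - b x‖ < ρ)) := by
          rcases lt_or_ge ‖x₀‖ (1 / 2) with hx2 | hx2
          · refine ⟨u₀, hu₀, ?_⟩
            filter_upwards [continuous_norm.continuousAt.eventually_lt_const hx2] with x hx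
            exact Or.inl hx.le
          · have hx0 : x₀ ≠ 0 := by
              rintro rfl
              rw [norm_zero] at hx2
              norm_num at hx2
            obtain ⟨w, hw, hwu, hwG⟩ := hnear _ (norm_unit hx0)
            rw [← hbu x₀ hx2] at hwG
            refine ⟨w, hw, ?_⟩
            have hc1 : ContinuousAt (fun x : EuclideanSpace ℝ (Fin (m + 1)) => ‖w - ‖x‖⁻¹ • x‖) x₀ := by
              apply ContinuousAt.norm
              apply continuousAt_const.sub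
              refine ContinuousAt.fun_smul ?_ continuousAt_id
              exact continuous_norm.continuousAt.inv₀ (norm_ne_zero_iff.2 hx0)
            have hc2 : ContinuousAt (fun x : EuclideanSpace ℝ (Fin (m + 1)) => ‖g w - b x‖) x₀ :=
              (continuous_const.sub hbc).norm.continuousAt
            filter_upwards [hc1.eventually_lt_const hwu, hc2.eventually_lt_const hwG] with x h1 h2
            exact Or.inr ⟨h1, h2⟩
        set y₀ := b x₀ + θ x₀ • (g w₀ - b x₀) with hy₀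
        have hy₀n : ‖y₀‖ ≤ 1 := by
          have e : y₀ = (1 - θ x₀) • b x₀ + θ x₀ • g w₀ := by
            rw [hy₀, sub_smul, one_smul, smul_sub]; abel
          have h1 : θ x₀ ≤ 1 := (hθn1 x₀ hx1).trans hθ1
          rw [e]
          refine (norm_add_le _ _).trans ?_
          rw [norm_smul, norm_smul, Real.norm_eq_abs, Real.norm_eq_abs,
            abs_of_nonneg (hθn0 x₀), abs_of_nonneg (sub_nonneg.2 h1)]
          have h2 := mul_le_mul_of_nonneg_left (hbn x₀) (sub_nonneg.2 h1)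
          have h3 := mul_le_mul_of_nonneg_left (hg1 w₀ hw₀) (hθn0 x₀)
          linarith
        refine ⟨f y₀, ?_⟩
        have hc3 : ContinuousAt (fun x : EuclideanSpace ℝ (Fin (m + 1)) => ‖y₀ - (b x + θ x • (g w₀ - b x))‖) x₀ :=
          (continuous_const.sub (hbc.add (hθc.smul (continuous_const.sub hbc)))).norm.continuousAt
        have hc4 : ‖y₀ - (b x₀ + θ x₀ • (g w₀ - b x₀))‖ < δ := by
          rw [← hy₀, sub_self, norm_zero]; exact hδ
        filter_upwards [hev, hc3.eventually_lt_const hc4] with x h1 h2 hx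
        exact subset_convexHull ℝ _ ⟨y₀, w₀, hy₀n, hw₀, h1, h2, rfl⟩)
  -- no zeros
  have hfin : Module.finrank ℝ (EuclideanSpace ℝ (Fin (m + 1))) = m + 1 := by simp
  have hL2 : (D * (1 + θs)) ^ 2 * r ^ 2 = 3 / 4 := by
    rw [← mul_pow, hLr, div_pow, hs2]; norm_num
  have hm' : (2:ℝ) ≤ m := by exact_mod_cast hm
  have hrm : r ^ 2 = m / (2 * (m + 1)) := by
    rw [hr]
    unfold cr
    rw [Real.sq_sqrt (by positivity)]
  have h0A : ∀ x, ‖x‖ ≤ 1 → (0 : EuclideanSpace ℝ (Fin (m + 1))) ∉ convexHull ℝ (A x) := by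
    intro x hx
    refine zero_notMem_hull (n := m + 1) hfin (hA1 x) (hA2 x hx) ?_
    have hL3 : (D * (1 + θs)) ^ 2 = 3 * (m + 1) / (2 * m) := by
      rw [hrm] at hL2
      have : (m:ℝ) ≠ 0 := by positivity
      field_simp at hL2 ⊢
      linarith
    rw [hL3]
    push_cast
    have : (0:ℝ) < m := by linarith
    have e : 3 * ((m:ℝ) + 1) / (2 * m) * (1 - 1 / (m + 1 + 1)) / 2 =
        3 * (m + 1) ^ 2 / (4 * m * (m + 2)) := by
      field_simp
      ring
    rw [e, div_lt_one (by positivity)]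
    nlinarith
  have hne : ∀ x, ‖x‖ ≤ 1 → h x ≠ 0 := by
    intro x hx h0
    have := hh x hx
    rw [h0] at this
    exact h0A x hx this
  -- the fixed point
  obtain ⟨c, hc, hcc⟩ := Pool.Agent.H75.Brouwer.brouwer
    (isCompact_closedBall (0 : EuclideanSpace ℝ (Fin (m + 1))) 1) (convex_closedBall _ _)
    ⟨0, by simp⟩ (fun x => -(‖h x‖⁻¹ • h x)) (by
      apply ContinuousOn.neg
      refine ContinuousOn.fun_smul ?_ h.continuous.continuousOn
      apply ContinuousOn.inv₀ h.continuous.norm.continuousOn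
      intro x hx
      exact norm_ne_zero_iff.2 (hne x (by simpa using hx))) (by
      intro x hx
      rw [mem_closedBall_zero_iff, norm_neg, norm_unit (hne x (by simpa using hx))])
  have hc1 : ‖c‖ ≤ 1 := by simpa using hc
  have hcn : ‖c‖ = 1 := by
    rw [← hcc, norm_neg, norm_unit (hne c hc1)]
  have hhc : ‖h c‖ • (-c) = h c := by
    have h1 : -c = ‖h c‖⁻¹ • h c := by
      rw [neg_eq_iff_eq_neg]; exact hcc.symm
    rw [h1, smul_smul, mul_inv_cancel₀ (norm_ne_zero_iff.2 (hne c hc1)), one_smul]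
  obtain ⟨a, ha, ha0, ha1⟩ := cone_near' (z := -c) (by rw [norm_neg, hcn]) hfin (hA1 c)
    (h0A c hc1) (hA2 c hc1) (norm_pos_iff.2 (hne c hc1)) (by rw [hhc]; exact hh c hc1)
  have ha2 : 1 / 2 ≤ (inner ℝ (-c) a : ℝ) := by
    rw [← pow_le_pow_iff_left₀ (by norm_num) ha0 two_ne_zero]
    refine le_trans ?_ ha1
    have e1 : (D * (1 + θs)) ^ 2 * (1 - 1 / ((m + 1 : ℕ) : ℝ)) / 2 = 3 / 4 := by
      rw [← hL2, hr, cr_sq]; ring
    rw [e1]; norm_num
  -- the estimate on the sphere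
  obtain ⟨y, w, hy, hw, hxw, hyq, rfl⟩ := ha
  rcases hxw with hxw | ⟨hwc, hgw⟩
  · rw [hcn] at hxw
    norm_num at hxw
  rw [hcn, inv_one, one_smul] at hwc
  have hθc' : θ c = θs := by
    rw [hθ]
    simp only
    rw [hcn]
    norm_num
  rw [hθc'] at hyq
  have h1 : ‖y - g w‖ ≤ ‖y - (b c + θs • (g w - b c))‖ + (1 - θs) * ‖g w - b c‖ := by
    have e : y - g w = (y - (b c + θs • (g w - b c))) + -((1 - θs) • (g w - b c)) := by
      rw [sub_smul, one_smul]; abel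
    calc ‖y - g w‖ = ‖(y - (b c + θs • (g w - b c))) + -((1 - θs) • (g w - b c))‖ := by rw [← e]
      _ ≤ ‖y - (b c + θs • (g w - b c))‖ + ‖-((1 - θs) • (g w - b c))‖ := norm_add_le _ _
      _ = _ := by
        rw [norm_neg, norm_smul, Real.norm_eq_abs, abs_of_nonneg (sub_nonneg.2 hθ1)]
  have h2 : (1 - θs) * ‖g w - b c‖ ≤ (1 - θs) * ρ :=
    mul_le_mul_of_nonneg_left hgw.le (sub_nonneg.2 hθ1)
  have h3 := hfg y w hy hw
  have h4 : ‖f y - c‖ ≤ ‖f y - w‖ + ‖w - c‖ := by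
    have := norm_add_le (f y - w) (w - c)
    rwa [sub_add_sub_cancel] at this
  have h5 : ‖f y - c‖ < s := by linarith
  have h6 : ‖f y - c‖ ^ 2 < 3 := by
    rw [← hs2]
    exact pow_lt_pow_left₀ h5 (norm_nonneg _) two_ne_zero
  rw [norm_sub_sq_real, hf1 y hy, hcn] at h6
  rw [inner_neg_left, real_inner_comm] at ha2
  linarith

/-- The lower bound. -/
theorem lower_exact {m : ℕ} (hm : 2 ≤ m)
    [Nonempty (closedBall (0 : EuclideanSpace ℝ (Fin (m + 1))) 1)]
    [Nonempty (sphere (0 : EuclideanSpace ℝ (Fin (m + 1))) 1)] :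
    (3 * √3 / 4) / (1 + 2 * cr m) ≤ ghDist (closedBall (0 : EuclideanSpace ℝ (Fin (m + 1))) 1)
      (sphere (0 : EuclideanSpace ℝ (Fin (m + 1))) 1) := by
  by_contra hlt
  push Not at hlt
  obtain ⟨r, hr1, hr2⟩ := exists_between hlt
  obtain ⟨R, hR1, hR2, hR⟩ := exists_rel_of_ghDist_lt hr1
  have hd : dst m = 2 * ((3 * √3 / 4) / (1 + 2 * cr m)) := by
    unfold dst; ring
  have hδ : 0 < (dst m - 2 * r) / 5 := by rw [hd]; linarith
  refine lower_core hm hδ rfl
    (fun x y => ∃ (hx : x ∈ closedBall (0 : EuclideanSpace ℝ (Fin (m + 1))) 1)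
      (hy : y ∈ sphere (0 : EuclideanSpace ℝ (Fin (m + 1))) 1), R ⟨x, hx⟩ ⟨y, hy⟩) ?_ ?_ ?_
  · intro x hx
    have hx' := mem_closedBall_zero_iff.2 hx
    obtain ⟨y, hy⟩ := hR1 ⟨x, hx'⟩
    exact ⟨y.1, mem_sphere_zero_iff_norm.1 y.2, hx', y.2, hy⟩
  · intro y hy
    have hy' := mem_sphere_zero_iff_norm.2 hy
    obtain ⟨x, hx⟩ := hR2 ⟨y, hy'⟩
    exact ⟨x.1, mem_closedBall_zero_iff.1 x.2, x.2, hy', hx⟩
  · rintro x y x' y' ⟨hx, hy, h1⟩ ⟨hx', hy', h2⟩
    have := hR _ _ _ _ h1 h2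
    rw [Subtype.dist_eq, Subtype.dist_eq, dist_eq_norm, dist_eq_norm] at this
    linarith

/-- Twice the circumradius of a regular simplex with edge `1`. -/
lemma two_cr (m : ℕ) : 2 * cr m = √(2 * m / (m + 1)) := by
  unfold cr
  have h : (2:ℝ) * m / (m + 1) = 2 ^ 2 * (m / (2 * (m + 1))) := by
    field_simp
  rw [h, Real.sqrt_mul (by norm_num), Real.sqrt_sq (by norm_num)]

end Pool.Agent.H49.GHL
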